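import Mathlib
import Pool.Agent.H26.NullFinite

set_option autoImplicit false

open Set Filter Topology MeasureTheory

namespace Pool.Agent.Results.MP_def4bf_gt.NotEqual

variable {X : Type} [AddCommGroup X] [TopologicalSpace X] [MeasurableSpace X]

/-- Null-finite sets. -/
def NullFinite (B : Set X) : Prop :=
  ∃ x : ℕ → X, Tendsto x atTop (𝓝 0) ∧ ∀ y : X, {k | y + x k ∈ B}.Finite

/-- Haar-null sets. -/
def HaarNull (B : Set X) : Prop :=
  ∃ μ : Measure X, IsProbabilityMeasure μ ∧ ∀ x, μ ((· + x) '' B) = 0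

/-- Haar-meager sets. -/
def HaarMeager (B : Set X) : Prop :=
  ∃ (K : Type) (_ : TopologicalSpace K), Nonempty K ∧ CompactSpace K ∧
    TopologicalSpace.MetrizableSpace K ∧ ∃ f : K → X, Continuous f ∧
      ∀ x, IsMeagre (f ⁻¹' ((· + x) '' B))

theorem result : ∃ (X : Type) (_ : AddCommGroup X) (_ : TopologicalSpace X) (_ : MeasurableSpace X),
    IsTopologicalAddGroup X ∧ PolishSpace X ∧ BorelSpace X ∧ ∃ A : Set X, MeasurableSet A ∧
      HaarNull A ∧ HaarMeager A ∧
      ∀ B : ℕ → Set X, (∀ k, MeasurableSet (B k) ∧ NullFinite (B k)) → ¬ A ⊆ ⋃ k, B k :=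
  ⟨∀ n : ℕ, ZMod (n + 2), inferInstance, inferInstance, inferInstance, inferInstance, inferInstance,
    inferInstance, _, (H26.NullFinite.closed 0).measurableSet, H26.NullFinite.null,
    ⟨_, inferInstance, inferInstance, inferInstance, inferInstance, id, continuous_id,
      H26.NullFinite.meagre⟩, fun B hB =>
      H26.NullFinite.not_covered (fun n => (Nat.card_zmod _).ge) B
        (fun k => BorelSpace.measurable_eq (α := ∀ n : ℕ, ZMod (n + 2)) ▸ (hB k).1) fun k => (hB k).2⟩

end Pool.Agent.Results.MP_def4bf_gt.NotEqual
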